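import Pool.Agent.KS6_11.DetNormal.Rational

set_option autoImplicit false

/-!
# MP_f44585_an, Q1 (no), in a stronger form: one deterministic number for countably many multipliers

`Pool.Agent.KS6_11.DetNormal`: `freq r x w N` is the frequency of the block `w` of base-`r` digits
among the first `N` positions of the expansion of `x`; `Normal r x` and `Deterministic r x` say that
`x` is normal or deterministic in base `r`, and `Sparse r x` says that the nonzero digits of `x` have
density zero (this implies `Deterministic r x`).
-/

namespace Pool.Agent.Results.MP_f44585_an.CountablyManyMultipliers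

open Pool.Agent.KS6_11.DetNormal

/-- Let `r ≥ 2`.
1. No irrational `b` has the property that `b y` is deterministic in base `r` for all `y`
   deterministic in base `r`.
2. For every countable set `B` of irrational numbers, every countable set `C` of real numbers and
   every open interval there is **one** number `y` in the interval, with digits in base `r` equal to
   `0` outside a set of positions of density zero, hence deterministic, such that `b y + c` is normal
   in base `r` for all `b ∈ B` and all `c ∈ C`. -/
theorem result (r : ℕ) (hr : 2 ≤ r) :
    (¬ ∃ b : ℝ, Irrational b ∧ ∀ y : ℝ, Deterministic r y → Deterministic r (b * y)) ∧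
    (∀ B : Set ℝ, B.Countable → (∀ b ∈ B, Irrational b) → ∀ C : Set ℝ, C.Countable →
      ∀ u v : ℝ, u < v → ∃ y, u < y ∧ y < v ∧ Sparse r y ∧ Deterministic r y ∧
        ∀ b ∈ B, ∀ c ∈ C, Normal r (b * y + c) ∧ ¬ Deterministic r (b * y + c)) := by
  constructor
  · rintro ⟨b, hb, h⟩
    obtain ⟨y, -, -, -, h4, h5⟩ := affine hr (u := 0) (v := 1) one_pos (B := {b}) (C := {0})
      (Set.countable_singleton b) (fun x hx => by rw [Set.mem_singleton_iff.1 hx]; exact hb)
      (Set.countable_singleton 0)
    have h6 := h5 b rfl 0 rfl
    rw [add_zero] at h6
    exact h6.not_deterministic hr (h y h4)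
  · intro B hB hB' C hC u v huv
    obtain ⟨y, h1, h2, h3, h4, h5⟩ := affine hr huv hB hB' hC
    exact ⟨y, h1, h2, h3, h4, fun b hb c hc => ⟨h5 b hb c hc, (h5 b hb c hc).not_deterministic hr⟩⟩

end Pool.Agent.Results.MP_f44585_an.CountablyManyMultipliers
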